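import Mathlib
import Pool.Agent.Q281.IPS.Main

/-!
MP_696e10_co, Q1 (positive answer): with probability tending to 1, the random graph `G(n,1/2)` has
a consistent path system that is irreducible and not metrizable.
-/

open Filter Topology Pool.Agent.Q281.IPS

theorem Pool.Agent.Results.MP_696e10_co.RandomGraph.result :
    Tendsto (fun n : ℕ =>
      (Nat.card {G : SimpleGraph (Fin n) //
        ∃ P : PathSystem G, P.Consistent ∧ ¬ P.Reducible ∧ ¬ P.Metrizable} : ℝ) /
        Nat.card (SimpleGraph (Fin n))) atTop (𝓝 1) :=
  main
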